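import Mathlib

namespace Pool.Agent.H.MP_75c9b5_nt

open ComplexConjugate

/-- `x > 1`, `z`, `conj z` are the roots of `X^3 - B X^2 - A X - 1`. -/
def D (A B : ℤ) (x : ℝ) (z : ℂ) : Prop :=
  1 < x ∧ (x : ℂ) * z * conj z = 1 ∧ (B : ℂ) = x + z + conj z ∧
    (-A : ℂ) = x * z + x * conj z + z * conj z

theorem D.real {A B : ℤ} {x : ℝ} {z : ℂ} (h : D A B x z) :
    x * (z.re ^ 2 + z.im ^ 2) = 1 ∧ (B : ℝ) = x + 2 * z.re ∧
      (-A : ℝ) = 2 * x * z.re + (z.re ^ 2 + z.im ^ 2) := by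
  obtain ⟨_, h1, h2, h3⟩ := h
  have e1 := congrArg Complex.re h1
  have e2 := congrArg Complex.re h2
  have e3 := congrArg Complex.re h3
  simp at e1 e2 e3
  refine ⟨by linarith, by linarith, by linarith⟩

theorem D.small {A B : ℤ} {x : ℝ} {z : ℂ} (h : D A B x z) : z.re ^ 2 + z.im ^ 2 < 1 := by
  have h1 := h.real.1
  have hx := h.1
  by_contra hc
  push Not at hc
  nlinarith

theorem D.re_lt {A B : ℤ} {x : ℝ} {z : ℂ} (h : D A B x z) : -1 < z.re ∧ z.re < 1 := by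
  have := h.small
  constructor <;> nlinarith [sq_nonneg z.im]

theorem D.gap {A B : ℤ} {x : ℝ} {z : ℂ} (h : D A B x z) : 5 / 4 < x := by
  obtain ⟨h1, h2, h3⟩ := h.real
  have hs := h.small
  obtain ⟨r1, r2⟩ := h.re_lt
  have hx := h.1
  have e : ((A + B : ℤ) : ℝ) = (x - 1) * ((z.re - 1) ^ 2 + z.im ^ 2) := by
    push_cast
    linear_combination h2 - h3 - h1
  have hp : 0 < (z.re - 1) ^ 2 + z.im ^ 2 := by nlinarith [sq_nonneg z.im]
  have h4 : (z.re - 1) ^ 2 + z.im ^ 2 < 4 := by nlinarith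
  have h5 : (0 : ℝ) < ((A + B : ℤ) : ℝ) := by rw [e]; exact mul_pos (by linarith) hp
  have h6 : (1 : ℤ) ≤ A + B := by exact_mod_cast h5
  have h7 : (1 : ℝ) ≤ ((A + B : ℤ) : ℝ) := by exact_mod_cast h6
  rw [e] at h7
  by_contra hc
  push Not at hc
  nlinarith

theorem D.cubic {A B : ℤ} {x : ℝ} {z : ℂ} (h : D A B x z) :
    x ^ 3 = B * x ^ 2 + A * x + 1 := by
  obtain ⟨h1, h2, h3⟩ := h.real
  linear_combination (-x ^ 2) * h2 + x * h3 + h1

theorem D.uniq {A B : ℤ} {x x' : ℝ} {z z' : ℂ} (h : D A B x z) (h' : D A B x' z') : x = x' := by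
  obtain ⟨h1, h2, h3⟩ := h.real
  have c := h'.cubic
  obtain ⟨r1, r2⟩ := h.re_lt
  have hx := h'.1
  have e : (x' - x) * ((x' - z.re) ^ 2 + z.im ^ 2) = 0 := by
    linear_combination c + x' ^ 2 * h2 - x' * h3 - h1
  have hp : 0 < (x' - z.re) ^ 2 + z.im ^ 2 := by nlinarith [sq_nonneg z.im]
  rcases mul_eq_zero.1 e with e | e
  · linarith
  · linarith

theorem D.loc {a b : ℕ} {x : ℝ} {z : ℂ} (h : D a b x z) (hab : a ≤ b) :
    (b : ℝ) < x ∧ x < b + 1 := by
  have c := h.cubic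
  have hx := h.1
  push_cast at c
  have ha : (0 : ℝ) ≤ a := Nat.cast_nonneg a
  have hab' : (a : ℝ) ≤ b := by exact_mod_cast hab
  constructor
  · by_contra hc
    push Not at hc
    have : 0 ≤ x ^ 2 * (b - x) := mul_nonneg (by positivity) (by linarith)
    nlinarith
  · by_contra hc
    push Not at hc
    have h1 : 0 ≤ x ^ 2 * (x - b - 1) := mul_nonneg (by positivity) (by linarith)
    have h2 : 0 ≤ x * (x - b - 1) := mul_nonneg (by positivity) (by linarith)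
    have h3 : 0 ≤ x * (b - a) := mul_nonneg (by positivity) (by linarith)
    nlinarith

theorem D.box {A B : ℤ} {x : ℝ} {z : ℂ} (h : D A B x z) {y : ℕ} (hy : x ≤ (y : ℝ) ^ 2) :
    0 ≤ B ∧ B ≤ (y : ℤ) ^ 2 + 1 ∧ -(2 * y : ℤ) ≤ A ∧ A ≤ 2 * y := by
  obtain ⟨h1, h2, h3⟩ := h.real
  have hs := h.small
  obtain ⟨r1, r2⟩ := h.re_lt
  have hx := h.1
  have hy0 : (0 : ℝ) ≤ y := Nat.cast_nonneg y
  have hq : (x * z.re) ^ 2 ≤ (y : ℝ) ^ 2 := by
    have : 0 ≤ x ^ 2 * z.im ^ 2 := by positivity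
    nlinarith
  have hq' := abs_le_of_sq_le_sq' hq hy0
  have b1 : (-1 : ℝ) < B := by linarith
  have b2 : (B : ℝ) < (y : ℝ) ^ 2 + 2 := by linarith
  have a1 : (-(2 * y + 1) : ℝ) < A := by nlinarith [hq'.2]
  have a2 : (A : ℝ) ≤ 2 * y := by nlinarith [hq'.1, sq_nonneg z.re, sq_nonneg z.im]
  have b1' : (-1 : ℤ) < B := by exact_mod_cast b1
  have b2' : B < (y : ℤ) ^ 2 + 2 := by exact_mod_cast b2
  have a1' : (-(2 * y + 1) : ℤ) < A := by exact_mod_cast a1
  have a2' : A ≤ 2 * (y : ℤ) := by exact_mod_cast a2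
  refine ⟨by omega, by omega, by omega, a2'⟩

theorem no_two {A B a b : ℤ} {x : ℝ} {z : ℂ} (h : D A B x z) (h' : D a b (x ^ 2) (z ^ 2))
    (ha : a % 4 = 3) (hab : (a + b) % 2 = 0) : False := by
  obtain ⟨_, h1, h2, h3⟩ := h
  obtain ⟨_, _, k2, k3⟩ := h'
  simp only [map_pow, Complex.ofReal_pow] at k2 k3
  have e1 : (a : ℂ) = 2 * B - A ^ 2 := by
    have : (A : ℂ) = -(x * z + x * conj z + z * conj z) := by linear_combination -h3
    rw [this, h2]
    linear_combination -k3 + 2 * (x + z + conj z) * h1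
  have e2 : (b : ℂ) = B ^ 2 + 2 * A := by
    have : (A : ℂ) = -(x * z + x * conj z + z * conj z) := by linear_combination -h3
    rw [this, h2]
    linear_combination k2
  have f1 : a = 2 * B - A ^ 2 := by exact_mod_cast e1
  have f2 : b = B ^ 2 + 2 * A := by exact_mod_cast e2
  rcases Int.even_or_odd' A with ⟨p, rfl | rfl⟩ <;> rcases Int.even_or_odd' B with ⟨q, rfl | rfl⟩
  all_goals
    ring_nf at f1 f2
    generalize p ^ 2 = P at f1 f2
    generalize q ^ 2 = Q at f1 f2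
    omega

theorem no_three {A B a b : ℤ} {x : ℝ} {z : ℂ} (h : D A B x z) (h' : D a b (x ^ 3) (z ^ 3))
    (ha : a % 9 = 3) : False := by
  obtain ⟨_, h1, h2, h3⟩ := h
  obtain ⟨_, _, k2, k3⟩ := h'
  simp only [map_pow, Complex.ofReal_pow] at k2 k3
  have e1 : (a : ℂ) = A ^ 3 - 3 * A * B - 3 := by
    have : (A : ℂ) = -(x * z + x * conj z + z * conj z) := by linear_combination -h3
    rw [this, h2]
    linear_combination -k3 + (3 * (x + z + conj z) * (x * z + x * conj z + z * conj z)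
      - 3 * (x * z * conj z + 1)) * h1
  have f1 : a = A ^ 3 - 3 * A * B - 3 := by exact_mod_cast e1
  obtain ⟨p, hp⟩ : ∃ p, A = 3 * p ∨ A = 3 * p + 1 ∨ A = 3 * p + 2 := ⟨A / 3, by omega⟩
  rcases hp with rfl | rfl | rfl
  all_goals
    ring_nf at f1
    generalize p ^ 2 = P at f1
    generalize p ^ 3 = Q at f1
    generalize p * B = R at f1
    omega

def r (A B : ℤ) : ℕ → ℤ
  | 0 => 3
  | 1 => -A
  | 2 => A ^ 2 - 2 * B
  | n + 3 => -A * r A B (n + 2) - B * r A B (n + 1) + r A B n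

theorem r_eq {A B : ℤ} {x : ℝ} {z : ℂ} (h : D A B x z) (m : ℕ) :
    (r A B m : ℂ) = (x * z) ^ m + (x * conj z) ^ m + (z * conj z) ^ m := by
  obtain ⟨_, h1, h2, h3⟩ := h
  have hA : (A : ℂ) = -(x * z + x * conj z + z * conj z) := by linear_combination -h3
  have c1 : ((x : ℂ) * z) ^ 3 = -A * (x * z) ^ 2 - B * (x * z) + 1 := by
    rw [hA, h2]
    linear_combination (x * z * conj z + 1 - (x + z + conj z) * (x * z)) * h1
  have c2 : ((x : ℂ) * conj z) ^ 3 = -A * (x * conj z) ^ 2 - B * (x * conj z) + 1 := by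
    rw [hA, h2]
    linear_combination (x * z * conj z + 1 - (x + z + conj z) * (x * conj z)) * h1
  have c3 : (z * conj z) ^ 3 = -A * (z * conj z) ^ 2 - B * (z * conj z) + 1 := by
    rw [hA, h2]
    linear_combination (x * z * conj z + 1 - (x + z + conj z) * (z * conj z)) * h1
  have key : ∀ m : ℕ, (r A B m : ℂ) = (x * z) ^ m + (x * conj z) ^ m + (z * conj z) ^ m ∧
      (r A B (m + 1) : ℂ) = (x * z) ^ (m + 1) + (x * conj z) ^ (m + 1) + (z * conj z) ^ (m + 1) ∧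
      (r A B (m + 2) : ℂ) = (x * z) ^ (m + 2) + (x * conj z) ^ (m + 2) + (z * conj z) ^ (m + 2) := by
    intro m
    induction m with
    | zero =>
      refine ⟨by simp [r]; norm_num, by simp [r, hA], ?_⟩
      simp only [r, zero_add]
      push_cast
      rw [hA, h2]
      linear_combination 2 * (x + z + conj z) * h1
    | succ m ih =>
      obtain ⟨i1, i2, i3⟩ := ih
      refine ⟨i2, i3, ?_⟩
      show ((r A B (m + 3) : ℤ) : ℂ) = _
      simp only [r]
      push_cast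
      rw [i1, i2, i3]
      linear_combination -(x * z) ^ m * c1 - (x * conj z) ^ m * c2 - (z * conj z) ^ m * c3
  exact (key m).1

theorem r_pow {A B a b : ℤ} {x : ℝ} {z : ℂ} {m : ℕ} (h : D A B x z) (h' : D a b (x ^ m) (z ^ m)) :
    r A B m = -a := by
  have e := r_eq h m
  obtain ⟨_, _, _, k3⟩ := h'
  simp only [map_pow, Complex.ofReal_pow] at k3
  have : (r A B m : ℂ) = -a := by rw [e, k3]; simp only [mul_pow]
  exact_mod_cast this

def chk (A B : ℤ) : ℕ → ℤ → ℤ → ℤ → Bool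
  | 0, _, _, _ => true
  | n + 1, u, v, w => (u != -3) && chk A B n v w (-A * w - B * v + u)

theorem chk_ok (A B : ℤ) : ∀ (n m : ℕ),
    chk A B n (r A B m) (r A B (m + 1)) (r A B (m + 2)) = true → ∀ j < n, r A B (m + j) ≠ -3 := by
  intro n
  induction n with
  | zero => intro m _ j hj; omega
  | succ n ih =>
    intro m h j hj
    simp only [chk, Bool.and_eq_true, bne_iff_ne] at h
    rcases j with _ | j
    · exact h.1
    · have := ih (m + 1) h.2 j (by omega)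
      rwa [show m + 1 + j = m + (j + 1) by ring] at this

def fuel (B : ℕ) : ℕ := if B ≤ 3 then 110 else if B ≤ 11 then 33 else if B ≤ 41 then 7 else 2

theorem table : ((List.range 171).all fun B => (List.range 53).all fun A =>
    chk ((A : ℤ) - 26) B (fuel B) (r ((A : ℤ) - 26) B 5) (r ((A : ℤ) - 26) B 6)
      (r ((A : ℤ) - 26) B 7)) = true := by decide +kernel

theorem pow_root {x : ℝ} {y m : ℕ} (hx : 1 < x) (hm : 5 ≤ m) (h : x ^ m ≤ (y : ℝ) ^ 10) :
    x ≤ (y : ℝ) ^ 2 := by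
  have h1 : x ^ 5 ≤ x ^ m := pow_le_pow_right₀ hx.le hm
  have h2 : x ^ 5 ≤ ((y : ℝ) ^ 2) ^ 5 := by rw [← pow_mul]; exact h1.trans h
  exact le_of_pow_le_pow_left₀ (by norm_num) (by positivity) h2

theorem no_small {A B b : ℤ} {x : ℝ} {z : ℂ} {m : ℕ} (h : D A B x z)
    (h' : D 3 b (x ^ m) (z ^ m)) (hm : 5 ≤ m) (hL : x ^ m ≤ ((13 : ℕ) : ℝ) ^ 10) : False := by
  have e := r_pow h h'
  obtain ⟨b1, b2, b3, b4⟩ := h.box (pow_root h.1 hm hL)
  have hg := h.gap
  have hB : (B : ℝ) - 2 < x := by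
    have := h.real.2.1
    have := h.re_lt.2
    linarith
  obtain ⟨B, rfl⟩ := Int.eq_ofNat_of_zero_le b1
  obtain ⟨A', hA⟩ : ∃ A' : ℕ, A = (A' : ℤ) - 26 := ⟨(A + 26).toNat, by omega⟩
  have t := table
  simp only [List.all_eq_true, List.mem_range] at t
  have t1 := t B (by omega) A' (by omega)
  rw [← hA] at t1
  have t2 := chk_ok A B (fuel B) 5 t1 (m - 5)
  rw [show 5 + (m - 5) = m by omega] at t2
  refine t2 ?_ e
  have aux : ∀ (c : ℝ) (n : ℕ), 1 ≤ c → c ≤ x → ((13 : ℕ) : ℝ) ^ 10 < c ^ n → m < n := by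
    intro c n hc hcx hn
    by_contra hc'
    push Not at hc'
    have q1 : c ^ n ≤ c ^ m := pow_le_pow_right₀ hc hc'
    have q2 : c ^ m ≤ x ^ m := pow_le_pow_left₀ (by linarith) hcx m
    linarith
  push_cast at hB
  unfold fuel
  split_ifs with c1 c2 c3
  · have := aux (5 / 4) 115 (by norm_num) hg.le (by norm_num)
    omega
  · have : (4 : ℝ) ≤ B := by exact_mod_cast (by omega : 4 ≤ B)
    have := aux 2 38 (by norm_num) (by linarith) (by norm_num)
    omega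
  · have : (12 : ℝ) ≤ B := by exact_mod_cast (by omega : 12 ≤ B)
    have := aux 10 12 (by norm_num) (by linarith) (by norm_num)
    omega
  · have : (42 : ℝ) ≤ B := by exact_mod_cast (by omega : 42 ≤ B)
    have := aux 40 7 (by norm_num) (by linarith) (by norm_num)
    omega

/-- the root of `X^3 - b X^2 - a X - 1` is an `m`-th power with `m ≥ 5` -/
def Bad (a b : ℕ) : Prop :=
  ∃ (A B : ℤ) (x : ℝ) (z : ℂ) (m : ℕ), 5 ≤ m ∧ D A B x z ∧ D a b (x ^ m) (z ^ m)

theorem big_ineq (y : ℕ) (hy : 14 ≤ y) :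
    (36 * ((4 * y + 1) * (y ^ 2 + 2) + 1)) ^ 2 + 1000 * ((4 * y + 1) * (y ^ 2 + 2) + 1)
      < 2 * (y - 1) ^ 10 := by
  obtain ⟨n, rfl⟩ := Nat.exists_eq_add_of_le hy
  rw [show 14 + n - 1 = 13 + n by omega]
  ring_nf
  omega

theorem exists_good (N : ℕ) (hN : 8 ≤ N) :
    ∃ a b : ℕ, a + b = N ∧ a % 36 = 3 ∧ a ≤ b ∧ a ^ 2 < 3 * b ∧ ¬ Bad a b := by
  classical
  have hex : ∃ y : ℕ, N + 1 ≤ y ^ 10 := ⟨N + 1, Nat.le_self_pow (by norm_num) _⟩
  by_cases hs : N + 1 ≤ 13 ^ 10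
  · refine ⟨3, N - 3, by omega, rfl, by omega, by omega, ?_⟩
    rintro ⟨A, B, x, z, m, hm, h, h'⟩
    have l := (h'.loc (by omega)).2
    refine no_small h h' hm ?_
    have : ((N - 3 : ℕ) : ℝ) + 1 ≤ ((13 : ℕ) : ℝ) ^ 10 := by
      exact_mod_cast (by omega : N - 3 + 1 ≤ 13 ^ 10)
    linarith
  obtain ⟨y, hy⟩ : ∃ y, y = Nat.find hex := ⟨_, rfl⟩
  have hy1 : N + 1 ≤ y ^ 10 := hy ▸ Nat.find_spec hex
  have hy2 : 14 ≤ y := by
    by_contra hc
    have : y ^ 10 ≤ 13 ^ 10 := Nat.pow_le_pow_left (by omega) 10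
    omega
  have hy3 : (y - 1) ^ 10 ≤ N := by
    have := Nat.find_min hex (m := y - 1) (by omega)
    omega
  have hb := big_ineq y hy2
  obtain ⟨J, hJ⟩ : ∃ J, J = (4 * y + 1) * (y ^ 2 + 2) + 1 := ⟨_, rfl⟩
  rw [← hJ] at hb
  have hb' : (36 * J) ^ 2 + 1000 * J < 2 * N := by omega
  have hJ1 : 1 ≤ J := by omega
  by_contra hcon
  push Not at hcon
  have hall : ∀ j : Fin J, Bad (36 * j + 3) (N - (36 * j + 3)) := by
    intro j
    have hj := j.2
    refine hcon _ _ (by omega) (by omega) (by omega) ?_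
    have : (36 * (j : ℕ) + 3) ^ 2 ≤ (36 * J) ^ 2 := Nat.pow_le_pow_left (by omega) 2
    omega
  choose A B x z m hm h h' using hall
  have loc : ∀ j : Fin J, (N : ℝ) - 36 * J < x j ^ m j ∧ x j ^ m j < N := by
    intro j
    have hj := j.2
    have l := (h' j).loc (by omega)
    have e : ((N - (36 * j + 3) : ℕ) : ℝ) = N - (36 * (j : ℕ) + 3) := by
      rw [Nat.cast_sub (by omega)]; push_cast; ring
    rw [e] at l
    have hj' : ((j : ℕ) : ℝ) + 1 ≤ J := by exact_mod_cast hj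
    have hj0 : (0 : ℝ) ≤ (j : ℕ) := Nat.cast_nonneg _
    constructor <;> linarith [l.1, l.2]
  have hmem : ∀ j : Fin J, (A j, B j) ∈
      (Finset.Icc (-(2 * y : ℤ)) (2 * y)) ×ˢ (Finset.Icc (0 : ℤ) ((y : ℤ) ^ 2 + 1)) := by
    intro j
    have q : (N : ℝ) + 1 ≤ (y : ℝ) ^ 10 := by exact_mod_cast hy1
    obtain ⟨b1, b2, b3, b4⟩ := (h j).box (pow_root (h j).1 (hm j) (y := y) (by linarith [(loc j).2]))
    simp only [Finset.mem_product, Finset.mem_Icc]
    exact ⟨⟨b3, b4⟩, b1, b2⟩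
  have hcard : ((Finset.Icc (-(2 * y : ℤ)) (2 * y)) ×ˢ (Finset.Icc (0 : ℤ) ((y : ℤ) ^ 2 + 1))).card
      < (Finset.univ : Finset (Fin J)).card := by
    rw [Finset.card_product, Int.card_Icc, Int.card_Icc, Finset.card_univ, Fintype.card_fin]
    have e1 : ((2 * y : ℤ) + 1 - -(2 * y)).toNat = 4 * y + 1 := by omega
    have e2 : ((y : ℤ) ^ 2 + 1 + 1 - 0).toNat = y ^ 2 + 2 := by
      have : ((y : ℤ) ^ 2 + 1 + 1 - 0) = ((y ^ 2 + 2 : ℕ) : ℤ) := by push_cast; ring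
      rw [this, Int.toNat_natCast]
    rw [e1, e2]; omega
  obtain ⟨i, -, j, -, hij, e⟩ := Finset.exists_ne_map_eq_of_card_lt_of_maps_to hcard
    (f := fun j => (A j, B j)) (fun j _ => hmem j)
  simp only [Prod.mk.injEq] at e
  have hx : x i = x j := (h i).uniq (by rw [e.1, e.2]; exact h j)
  have hNJ0 : 500 * J < N := by
    clear hmem hcard loc
    omega
  have hNJ : (500 : ℝ) * J < N := by exact_mod_cast hNJ0
  have hJ0 : (1 : ℝ) ≤ J := by exact_mod_cast hJ1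
  have step : ∀ i j : Fin J, x i = x j → ¬ m i < m j := by
    intro i j hx hlt
    have g := (h j).gap
    have q1 : x j ^ (m i + 1) ≤ x j ^ m j := pow_le_pow_right₀ (h j).1.le hlt
    have q2 := (loc i).1
    have q3 := (loc j).2
    rw [hx] at q2
    rw [pow_succ] at q1
    have q4 : 0 < x j ^ m i := by linarith
    have q5 : x j ^ m i * (5 / 4) < x j ^ m i * x j := mul_lt_mul_of_pos_left g q4
    linarith
  have hmm : m i = m j := by
    have := step i j hx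
    have := step j i hx.symm
    omega
  have c1 := (h' i).cubic
  have c2 := (h' j).cubic
  have g1 := (h' j).1
  rw [hx, hmm] at c1
  generalize x j ^ m j = t at c1 c2 g1
  have hi := i.2
  have hj := j.2
  rw [Nat.cast_sub (by omega)] at c1 c2
  push_cast at c1 c2
  have : (((i : ℕ) : ℝ) - (j : ℕ)) * (36 * (t * (t - 1))) = 0 := by linear_combination c1 - c2
  rcases mul_eq_zero.1 this with q | q
  · have : ((i : ℕ) : ℝ) = (j : ℕ) := by linarith
    exact hij (Fin.ext (by exact_mod_cast this))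
  · have : 0 < t * (t - 1) := mul_pos (by linarith) (by linarith)
    linarith

end Pool.Agent.H.MP_75c9b5_nt
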