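import Mathlib
import Pool.Agent.H.MP_75c9b5_nt.A

namespace Pool.Agent.H.MP_75c9b5_nt

open ComplexConjugate Polynomial NumberField

theorem exists_D (a b : ℕ) (hab : a ≤ b) (h3 : a ^ 2 < 3 * b) (hb : 4 ≤ b) :
    ∃ (x : ℝ) (z : ℂ), D a b x z ∧ z.im ≠ 0 := by
  have ha0 : (0 : ℝ) ≤ a := Nat.cast_nonneg a
  have hab' : (a : ℝ) ≤ b := by exact_mod_cast hab
  have h3' : (a : ℝ) ^ 2 < 3 * b := by exact_mod_cast h3
  have hb' : (4 : ℝ) ≤ b := by exact_mod_cast hb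
  obtain ⟨x, hx, e⟩ : ∃ x ∈ Set.Icc (b : ℝ) (b + 1), x ^ 3 - b * x ^ 2 - a * x - 1 = 0 := by
    have hc : ContinuousOn (fun x : ℝ => x ^ 3 - b * x ^ 2 - a * x - 1) (Set.Icc (b : ℝ) (b + 1)) := by
      fun_prop
    refine intermediate_value_Icc (by linarith) hc ⟨?_, ?_⟩
    · nlinarith
    · nlinarith
  have hx0 : 0 < x := by linarith [hx.1]
  have hx4 : 4 ≤ x := by linarith [hx.1]
  set u : ℝ := (b - x) / 2 with hu
  have hlt : u ^ 2 < 1 / x := by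
    rw [lt_div_iff₀ hx0]
    have e1 : x ^ 2 * (x - b) = a * x + 1 := by linarith
    have e2 : (a * x + 1) ^ 2 < 4 * x ^ 3 := by
      have q1 : (a : ℝ) ^ 2 * x ^ 2 ≤ 3 * x * x ^ 2 :=
        mul_le_mul_of_nonneg_right (by linarith [hx.1]) (by positivity)
      have q2 : a * x ≤ x * x := mul_le_mul_of_nonneg_right (by linarith [hx.1]) hx0.le
      have q3 : 4 * (x * x) ≤ x * (x * x) := mul_le_mul_of_nonneg_right hx4 (by positivity)
      nlinarith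
    rw [← e1] at e2
    have e3 : x ^ 3 * (u ^ 2 * x) < x ^ 3 * 1 := by rw [hu]; nlinarith
    exact lt_of_mul_lt_mul_left e3 (by positivity)
  set v : ℝ := Real.sqrt (1 / x - u ^ 2) with hv
  have hv0 : 0 < v := Real.sqrt_pos.2 (by linarith)
  have hv2 : v ^ 2 = 1 / x - u ^ 2 := Real.sq_sqrt (by linarith)
  have k1 : x * (u ^ 2 + v ^ 2) = 1 := by rw [hv2]; field_simp; ring
  have k2 : (b : ℝ) = x + 2 * u := by rw [hu]; ring
  have k3 : (-a : ℝ) = 2 * x * u + (u ^ 2 + v ^ 2) := by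
    apply mul_left_cancel₀ hx0.ne'
    linear_combination e - k1 + x ^ 2 * k2
  refine ⟨x, ⟨u, v⟩, ⟨by linarith, ?_, ?_, ?_⟩, hv0.ne'⟩
  · apply Complex.ext <;> simp <;> linarith
  · apply Complex.ext <;> simp <;> linarith
  · apply Complex.ext <;> simp <;> linarith

theorem D.cubicC {A B : ℤ} {x : ℝ} {z : ℂ} (h : D A B x z) :
    z ^ 3 = B * z ^ 2 + A * z + 1 := by
  obtain ⟨_, h1, h2, h3⟩ := h
  linear_combination (-z ^ 2) * h2 + z * h3 + h1

noncomputable def fZ (a b : ℕ) : ℤ[X] := X ^ 3 - C (b : ℤ) * X ^ 2 - C (a : ℤ) * X - 1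

noncomputable def fQ (a b : ℕ) : ℚ[X] := (fZ a b).map (algebraMap ℤ ℚ)

theorem fZ_monic (a b : ℕ) : (fZ a b).Monic := by unfold fZ; monicity!

theorem fZ_deg (a b : ℕ) : (fZ a b).natDegree = 3 := by unfold fZ; compute_degree!

theorem fQ_monic (a b : ℕ) : (fQ a b).Monic := (fZ_monic a b).map _

theorem fQ_deg (a b : ℕ) : (fQ a b).natDegree = 3 := by
  unfold fQ; rw [(fZ_monic a b).natDegree_map, fZ_deg]

theorem aeval_fZ {R : Type*} [CommRing R] (a b : ℕ) (x : R) :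
    aeval x (fZ a b) = x ^ 3 - b * x ^ 2 - a * x - 1 := by
  simp [fZ]

theorem aeval_fQ {R : Type*} [CommRing R] [Algebra ℚ R] (a b : ℕ) (x : R) :
    aeval x (fQ a b) = x ^ 3 - b * x ^ 2 - a * x - 1 := by
  simp [fQ, fZ]

theorem fQ_irr (a b : ℕ) (hab : a ≤ b) (hb : 1 ≤ b) : Irreducible (fQ a b) := by
  rw [(fQ_monic a b).irreducible_iff_roots_eq_zero_of_degree_le_three (by rw [fQ_deg]; norm_num)
    (by rw [fQ_deg])]
  rw [Multiset.eq_zero_iff_forall_notMem]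
  intro q hq
  rw [mem_roots (fQ_monic a b).ne_zero, IsRoot.def, ← coe_aeval_eq_eval] at hq
  have hq' : aeval q (fZ a b) = 0 := by rw [aeval_fZ, ← aeval_fQ]; exact hq
  have hi : IsIntegral ℤ q := ⟨fZ a b, fZ_monic a b, hq'⟩
  obtain ⟨n, rfl⟩ := IsIntegrallyClosed.isIntegral_iff.1 hi
  rw [aeval_fZ] at hq'
  simp only [eq_intCast] at hq'
  have e : n ^ 3 - b * n ^ 2 - a * n - 1 = 0 := by exact_mod_cast hq'
  have e' : n * (n ^ 2 - b * n - a) = 1 := by linear_combination e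
  rcases Int.eq_one_or_neg_one_of_mul_eq_one e' with rfl | rfl <;> omega

theorem dvd_eval {a b : ℕ} (hab : a ≤ b) (hb : 1 ≤ b) {x : ℝ} (hx : x ^ 3 = b * x ^ 2 + a * x + 1)
    (g : ℤ[X]) (hg : aeval x g = 0) : ((a + b : ℕ) : ℤ) ∣ g.eval 1 := by
  have h0 : aeval x (fQ a b) = 0 := by rw [aeval_fQ]; linarith
  have hm : fQ a b = minpoly ℚ x :=
    minpoly.eq_of_irreducible_of_monic (fQ_irr a b hab hb) h0 (fQ_monic a b)
  have h1 : fQ a b ∣ g.map (algebraMap ℤ ℚ) := by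
    rw [hm]; apply minpoly.dvd; rw [aeval_map_algebraMap]; exact hg
  have h2 : fZ a b ∣ g :=
    (map_dvd_map (algebraMap ℤ ℚ) (algebraMap ℤ ℚ).injective_int (fZ_monic a b)).1 h1
  have h3 := eval_dvd (x := 1) h2
  have h4 : (fZ a b).eval 1 = -((a + b : ℕ) : ℤ) := by simp [fZ]; ring
  rw [h4] at h3
  exact (neg_dvd).1 h3

theorem lower_nat {N b k : ℕ} {x : ℝ} (hN : N ≤ 2 * b) (hx : 1 < x) (hb : (b : ℝ) < x)
    (hd : ∀ g : ℤ[X], aeval x g = 0 → (N : ℤ) ∣ g.eval 1) (s : Fin k → ℤ)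
    (hs : ∀ i, s i = 1 ∨ s i = -1) (e : Fin k → ℕ) (h0 : ∑ i, (s i : ℝ) * x ^ e i = 0)
    (hk : 1 ≤ k)
    (H : Odd k ∨ ∀ i j, i ≠ j → (s i : ℝ) * x ^ e i + (s j : ℝ) * x ^ e j ≠ 0) : N + 2 ≤ k := by
  classical
  have hx0 : 0 < x := by linarith
  set P := Finset.univ.filter (fun i => s i = 1) with hP
  set Q := Finset.univ.filter (fun i => ¬ s i = 1) with hQ
  have mP : ∀ i ∈ P, s i = 1 := fun i hi => (Finset.mem_filter.1 hi).2
  have mQ : ∀ i ∈ Q, s i = -1 := fun i hi => (hs i).resolve_left (Finset.mem_filter.1 hi).2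
  have split : ∀ {M : Type} [AddCommMonoid M] (F : Fin k → M),
      ∑ i, F i = ∑ i ∈ P, F i + ∑ i ∈ Q, F i :=
    fun F => (Finset.sum_filter_add_sum_filter_not _ _ F).symm
  have c1 : P.card + Q.card = k := by
    have := split (fun _ => (1 : ℕ))
    simpa using this.symm
  have c2 : ∑ i ∈ P, x ^ e i = ∑ i ∈ Q, x ^ e i := by
    rw [split, Finset.sum_congr rfl (fun i hi => by rw [mP i hi]),
      Finset.sum_congr (s₁ := Q) rfl (fun i hi => by rw [mQ i hi])] at h0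
    simp only [Int.cast_one, one_mul, Int.cast_neg, neg_mul, Finset.sum_neg_distrib] at h0
    linarith
  have c3 : (N : ℤ) ∣ (P.card : ℤ) - Q.card := by
    have := hd (∑ i, C (s i) * X ^ e i) (by simpa using h0)
    rw [eval_finset_sum, split, Finset.sum_congr rfl (fun i hi => by rw [mP i hi]),
      Finset.sum_congr (s₁ := Q) rfl (fun i hi => by rw [mQ i hi])] at this
    simpa [sub_eq_add_neg] using this
  have pos : ∀ T : Finset (Fin k), T.Nonempty → 0 < ∑ i ∈ T, x ^ e i :=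
    fun T hT => Finset.sum_pos (fun i _ => by positivity) hT
  have nP : 1 ≤ P.card := by
    by_contra hc
    have hP0 : P = ∅ := Finset.card_eq_zero.1 (by omega)
    have := pos Q (Finset.card_pos.1 (by omega))
    rw [← c2, hP0] at this
    simp at this
  have nQ : 1 ≤ Q.card := by
    by_contra hc
    have hQ0 : Q = ∅ := Finset.card_eq_zero.1 (by omega)
    have := pos P (Finset.card_pos.1 (by omega))
    rw [c2, hQ0] at this
    simp at this
  by_cases hPQ : P.card = Q.card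
  · have H' := H.resolve_left (by rintro ⟨c, hc⟩; omega)
    obtain ⟨i0, -, hi0⟩ := Finset.exists_max_image Finset.univ e ⟨⟨0, hk⟩, Finset.mem_univ _⟩
    have key : ∀ T T' : Finset (Fin k), i0 ∈ T → (∀ j ∈ T', s j = - s i0) →
        ∑ i ∈ T, x ^ e i = ∑ i ∈ T', x ^ e i → b < T'.card := by
      intro T T' hT hT' hsum
      have q1 : x ^ e i0 ≤ ∑ i ∈ T, x ^ e i :=
        Finset.single_le_sum (f := fun i => x ^ e i) (fun i _ => by positivity) hT
      have q2 : ∀ j ∈ T', x * x ^ e j ≤ x ^ e i0 := by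
        intro j hj
        have ne : i0 ≠ j := by
          rintro rfl
          have := hT' _ hj
          rcases hs i0 with h | h <;> omega
        have ne2 : e j ≠ e i0 := by
          intro he
          apply H' i0 j ne
          rw [hT' j hj, he]; push_cast; ring
        have le := hi0 j (Finset.mem_univ _)
        rw [← pow_succ']
        exact pow_le_pow_right₀ hx.le (by omega)
      have q3 : ∑ j ∈ T', x * x ^ e j ≤ T'.card • x ^ e i0 := Finset.sum_le_card_nsmul _ _ _ q2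
      rw [← Finset.mul_sum, ← hsum, nsmul_eq_mul] at q3
      have q4 : x * x ^ e i0 ≤ T'.card * x ^ e i0 :=
        (mul_le_mul_of_nonneg_left q1 hx0.le).trans q3
      have q5 : x ≤ T'.card := le_of_mul_le_mul_right q4 (by positivity)
      have : (b : ℝ) < T'.card := by linarith
      exact_mod_cast this
    by_cases h1 : s i0 = 1
    · have := key P Q (Finset.mem_filter.2 ⟨Finset.mem_univ _, h1⟩)
        (fun j hj => by rw [mQ j hj, h1]) c2
      omega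
    · have h1' := (hs i0).resolve_left h1
      have := key Q P (Finset.mem_filter.2 ⟨Finset.mem_univ _, h1⟩)
        (fun j hj => by rw [mP j hj, h1']; rfl) c2.symm
      omega
  · have := Int.le_abs_of_dvd (by omega) c3
    rcases abs_cases ((P.card : ℤ) - Q.card) with h | h <;> omega

theorem lower {N b k : ℕ} {x : ℝ} (hN : N ≤ 2 * b) (hx : 1 < x) (hb : (b : ℝ) < x)
    (hd : ∀ g : ℤ[X], aeval x g = 0 → (N : ℤ) ∣ g.eval 1) (v : Fin k → ℝ)
    (hv : ∀ i, ∃ n : ℤ, v i = x ^ n ∨ v i = - x ^ n) (h0 : ∑ i, v i = 0) (hk : 1 ≤ k)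
    (H : Odd k ∨ ∀ i j, i ≠ j → v i + v j ≠ 0) : N + 2 ≤ k := by
  have hx0 : 0 < x := by linarith
  have hv' : ∀ i, ∃ (n : ℤ) (s : ℤ), (s = 1 ∨ s = -1) ∧ v i = s * x ^ n := by
    intro i
    obtain ⟨n, h | h⟩ := hv i
    · exact ⟨n, 1, Or.inl rfl, by simp [h]⟩
    · exact ⟨n, -1, Or.inr rfl, by simp [h]⟩
  choose n s hs hsv using hv'
  obtain ⟨c, hc⟩ := (Set.finite_range n).bddBelow
  have hc' : ∀ i, c ≤ n i := fun i => hc ⟨i, rfl⟩
  have hw : ∀ i, (s i : ℝ) * x ^ (n i - c).toNat = v i * x ^ (-c) := by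
    intro i
    rw [hsv, mul_assoc, ← zpow_add₀ hx0.ne', ← zpow_natCast, Int.toNat_of_nonneg (by linarith [hc' i])]
    rfl
  have hz : x ^ (-c) ≠ 0 := by positivity
  refine lower_nat hN hx hb hd s hs (fun i => (n i - c).toNat) ?_ hk (H.imp id ?_)
  · simp only [hw, ← Finset.sum_mul, h0, zero_mul]
  · intro H i j hij
    rw [hw, hw, ← add_mul]
    exact mul_ne_zero (H i j hij) hz

section field

variable {K : Type} [Field K] [NumberField K] (σ : K →+* ℝ) (φ : K →+* ℂ)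

theorem trace_norm (h3 : Module.finrank ℚ K = 3) {θ : K} (hθ : (φ θ).im ≠ 0) {x : K}
    (hx : IsIntegral ℤ x) :
    (∃ n : ℤ, (n : ℂ) = σ x + φ x + conj (φ x)) ∧ ∃ n : ℤ, (n : ℂ) = σ x * φ x * conj (φ x) := by
  classical
  let e1 : K →ₐ[ℚ] ℂ := (Complex.ofRealHom.comp σ).toRatAlgHom
  let e2 : K →ₐ[ℚ] ℂ := φ.toRatAlgHom
  let e3 : K →ₐ[ℚ] ℂ := ((starRingEnd ℂ).comp φ).toRatAlgHom
  have v1 : ∀ y, e1 y = σ y := fun _ => rfl
  have v2 : ∀ y, e2 y = φ y := fun _ => rfl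
  have v3 : ∀ y, e3 y = conj (φ y) := fun _ => rfl
  have n12 : e1 ≠ e2 := by
    intro h
    have := congrArg (fun e : K →ₐ[ℚ] ℂ => (e θ).im) h
    simp only [v1, v2, Complex.ofReal_im] at this
    exact hθ this.symm
  have n13 : e1 ≠ e3 := by
    intro h
    have := congrArg (fun e : K →ₐ[ℚ] ℂ => (e θ).im) h
    simp only [v1, v3, Complex.ofReal_im, Complex.conj_im] at this
    exact hθ (by linarith)
  have n23 : e2 ≠ e3 := by
    intro h
    have := congrArg (fun e : K →ₐ[ℚ] ℂ => (e θ).im) h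
    simp only [v2, v3, Complex.conj_im] at this
    exact hθ (by linarith)
  have hu : (Finset.univ : Finset (K →ₐ[ℚ] ℂ)) = {e1, e2, e3} := by
    symm
    apply Finset.eq_univ_of_card
    rw [AlgHom.card, h3, Finset.card_eq_three]
    exact ⟨e1, e2, e3, n12, n13, n23, rfl⟩
  have m1 : e1 ∉ ({e2, e3} : Finset _) := by simp [n12, n13]
  have m2 : e2 ∉ ({e3} : Finset _) := by simp [n23]
  constructor
  · obtain ⟨n, hn⟩ := IsIntegrallyClosed.isIntegral_iff.1 (Algebra.isIntegral_trace (L := ℚ) hx)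
    refine ⟨n, ?_⟩
    have := trace_eq_sum_embeddings ℂ (K := ℚ) (x := x)
    rw [← hn, hu, Finset.sum_insert m1, Finset.sum_insert m2, Finset.sum_singleton, v1, v2, v3] at this
    simpa [add_assoc] using this
  · obtain ⟨n, hn⟩ := IsIntegrallyClosed.isIntegral_iff.1 (Algebra.isIntegral_norm ℚ hx)
    refine ⟨n, ?_⟩
    have := Algebra.norm_eq_prod_embeddings ℚ ℂ x
    rw [← hn, hu, Finset.prod_insert m1, Finset.prod_insert m2, Finset.prod_singleton, v1, v2, v3]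
      at this
    simpa [mul_assoc] using this

/-- real value of a unit -/
noncomputable def sv (u : (𝓞 K)ˣ) : ℝ := σ ((u : 𝓞 K) : K)

/-- complex value of a unit -/
noncomputable def cv (u : (𝓞 K)ˣ) : ℂ := φ ((u : 𝓞 K) : K)

omit [NumberField K] in
theorem sv_mul (u v : (𝓞 K)ˣ) : sv σ (u * v) = sv σ u * sv σ v := by simp [sv]

omit [NumberField K] in
theorem sv_pow (u : (𝓞 K)ˣ) (n : ℕ) : sv σ (u ^ n) = sv σ u ^ n := by simp [sv]

omit [NumberField K] in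
theorem cv_pow (u : (𝓞 K)ˣ) (n : ℕ) : cv φ (u ^ n) = cv φ u ^ n := by simp [cv]

omit [NumberField K] in
theorem sv_neg (u : (𝓞 K)ˣ) : sv σ (-u) = - sv σ u := by simp [sv]

omit [NumberField K] in
theorem sv_inv_mul (u : (𝓞 K)ˣ) : sv σ u⁻¹ * sv σ u = 1 := by
  rw [← sv_mul]; simp [sv]

omit [NumberField K] in
theorem cv_inv_mul (u : (𝓞 K)ˣ) : cv φ u⁻¹ * cv φ u = 1 := by
  unfold cv
  rw [← map_mul, ← map_mul]; simp

omit [NumberField K] in
theorem sv_ne (u : (𝓞 K)ˣ) : sv σ u ≠ 0 := right_ne_zero_of_mul_eq_one (sv_inv_mul σ u)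

omit [NumberField K] in
theorem sv_inv (u : (𝓞 K)ˣ) : sv σ u⁻¹ = (sv σ u)⁻¹ := eq_inv_of_mul_eq_one_left (sv_inv_mul σ u)

omit [NumberField K] in
theorem sv_inj {u v : (𝓞 K)ˣ} (h : sv σ u = sv σ v) : u = v := by
  apply Units.ext
  apply RingOfIntegers.ext
  exact σ.injective h

theorem unit_D (h3 : Module.finrank ℚ K = 3) {θ : K} (hθ : (φ θ).im ≠ 0) (u : (𝓞 K)ˣ)
    (hu : 1 < sv σ u) : ∃ A B : ℤ, D A B (sv σ u) (cv φ u) := by
  obtain ⟨⟨B, hB⟩, n, hn⟩ := trace_norm σ φ h3 hθ (RingOfIntegers.isIntegral_coe (u : 𝓞 K))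
  obtain ⟨⟨A, hA⟩, n', hn'⟩ :=
    trace_norm σ φ h3 hθ (RingOfIntegers.isIntegral_coe ((u⁻¹ : (𝓞 K)ˣ) : 𝓞 K))
  change (B : ℂ) = sv σ u + cv φ u + conj (cv φ u) at hB
  change (n : ℂ) = sv σ u * cv φ u * conj (cv φ u) at hn
  change (A : ℂ) = sv σ u⁻¹ + cv φ u⁻¹ + conj (cv φ u⁻¹) at hA
  change (n' : ℂ) = sv σ u⁻¹ * cv φ u⁻¹ * conj (cv φ u⁻¹) at hn'
  have i1 : (sv σ u⁻¹ : ℂ) * sv σ u = 1 := by exact_mod_cast sv_inv_mul σ u
  have i2 := cv_inv_mul φ u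
  have i3 : conj (cv φ u⁻¹) * conj (cv φ u) = 1 := by rw [← map_mul, i2, map_one]
  have e : (n : ℂ) * n' = 1 := by
    rw [hn, hn']
    linear_combination (cv φ u⁻¹ * cv φ u) * (conj (cv φ u⁻¹) * conj (cv φ u)) * i1
      + (conj (cv φ u⁻¹) * conj (cv φ u)) * i2 + i3
  have e' : n * n' = 1 := by exact_mod_cast e
  have hn1 : n = 1 := by
    rcases Int.eq_one_or_neg_one_of_mul_eq_one e' with h | h
    · exact h
    · exfalso
      rw [h, mul_assoc, Complex.mul_conj] at hn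
      have : ((-1 : ℤ) : ℝ) = sv σ u * Complex.normSq (cv φ u) := by exact_mod_cast hn
      have := mul_nonneg (by linarith : 0 ≤ sv σ u) (Complex.normSq_nonneg (cv φ u))
      push_cast at *
      linarith
  rw [hn1] at hn
  push_cast at hn
  refine ⟨-A, B, hu, hn.symm, hB, ?_⟩
  push_cast
  rw [neg_neg, hA]
  linear_combination (sv σ u⁻¹ + cv φ u⁻¹ + conj (cv φ u⁻¹)) * hn
    + cv φ u * conj (cv φ u) * i1 + sv σ u * conj (cv φ u) * i2 + sv σ u * cv φ u * i3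

theorem cyclic (h3 : Module.finrank ℚ K = 3) {θ : K} (hθ : (φ θ).im ≠ 0) (ρ : (𝓞 K)ˣ)
    (hρ : 1 < sv σ ρ) : ∃ η : (𝓞 K)ˣ, 1 < sv σ η ∧
      ∀ u : (𝓞 K)ˣ, ∃ n : ℤ, sv σ u = sv σ η ^ n ∨ sv σ u = - sv σ η ^ n := by
  let H : AddSubgroup ℝ :=
    { carrier := {t | ∃ u : (𝓞 K)ˣ, 0 < sv σ u ∧ t = Real.log (sv σ u)}
      zero_mem' := ⟨1, by simp [sv], by simp [sv]⟩
      add_mem' := by
        rintro _ _ ⟨u, hu, rfl⟩ ⟨v, hv, rfl⟩
        exact ⟨u * v, by rw [sv_mul]; positivity, by rw [sv_mul, Real.log_mul hu.ne' hv.ne']⟩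
      neg_mem' := by
        rintro _ ⟨u, hu, rfl⟩
        exact ⟨u⁻¹, by rw [sv_inv]; positivity, by rw [sv_inv, Real.log_inv]⟩ }
  have hd : Disjoint (H : Set ℝ) (Set.Ioo 0 (Real.log (5 / 4))) := by
    rw [Set.disjoint_left]
    rintro _ ⟨u, hu, rfl⟩ ⟨h1, h2⟩
    have h1' : 1 < sv σ u := (Real.log_pos_iff hu.le).1 h1
    obtain ⟨A, B, hD⟩ := unit_D σ φ h3 hθ u h1'
    have := Real.log_lt_log (by norm_num) hD.gap
    linarith
  obtain ⟨c, hc⟩ := AddSubgroup.cyclic_of_isolated_zero (Real.log_pos (by norm_num)) hd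
  have hmul : ∀ u : (𝓞 K)ˣ, 0 < sv σ u → ∃ n : ℤ, n • c = Real.log (sv σ u) := by
    intro u hu
    have : Real.log (sv σ u) ∈ H := ⟨u, hu, rfl⟩
    rw [hc] at this
    exact AddSubgroup.mem_closure_singleton.1 this
  have hcH : c ∈ H := by rw [hc]; exact AddSubgroup.mem_closure_singleton_self c
  have hc0 : c ≠ 0 := by
    rintro rfl
    obtain ⟨n, hn⟩ := hmul ρ (by linarith)
    have := Real.log_pos hρ
    simp at hn
    linarith
  obtain ⟨η, hη, hl⟩ : |c| ∈ H := by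
    rcases abs_choice c with h | h <;> rw [h]
    · exact hcH
    · exact H.neg_mem hcH
  have hη1 : 1 < sv σ η := (Real.log_pos_iff hη.le).1 (hl ▸ abs_pos.2 hc0)
  have hpos : ∀ u : (𝓞 K)ˣ, 0 < sv σ u → ∃ n : ℤ, sv σ u = sv σ η ^ n := by
    intro u hu
    obtain ⟨n, hn⟩ := hmul u hu
    obtain ⟨n', hn'⟩ : ∃ n' : ℤ, n' * |c| = Real.log (sv σ u) := by
      rcases abs_choice c with h | h
      · exact ⟨n, by rw [h, ← hn]; simp⟩
      · exact ⟨-n, by rw [h, ← hn]; simp⟩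
    refine ⟨n', Real.log_injOn_pos hu (zpow_pos hη n') ?_⟩
    rw [Real.log_zpow, ← hl, hn']
  refine ⟨η, hη1, fun u => ?_⟩
  rcases lt_or_gt_of_ne (sv_ne σ u) with h | h
  · obtain ⟨n, hn⟩ := hpos (-u) (by rw [sv_neg]; linarith)
    exact ⟨n, Or.inr (by rw [← hn, sv_neg, neg_neg])⟩
  · obtain ⟨n, hn⟩ := hpos u h
    exact ⟨n, Or.inl hn⟩

theorem fundamental (h3 : Module.finrank ℚ K = 3) {a b : ℕ} (ρ : (𝓞 K)ˣ)
    (hρ : D a b (sv σ ρ) (cv φ ρ)) (him : (cv φ ρ).im ≠ 0) (ha : a % 36 = 3)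
    (hab : (a + b) % 2 = 0) (hbad : ¬ Bad a b) :
    ∀ u : (𝓞 K)ˣ, ∃ n : ℤ, sv σ u = sv σ ρ ^ n ∨ sv σ u = - sv σ ρ ^ n := by
  obtain ⟨η, hη, hall⟩ := cyclic σ φ h3 him ρ hρ.1
  have hρ1 := hρ.1
  obtain ⟨m, hm⟩ : ∃ m : ℕ, 1 ≤ m ∧ ρ = η ^ m := by
    obtain ⟨n, h | h⟩ := hall ρ
    · have hn : 0 < n := by
        rw [h] at hρ1
        exact (one_lt_zpow_iff_right₀ hη).1 hρ1
      refine ⟨n.toNat, by omega, sv_inj σ ?_⟩
      rw [sv_pow, h, ← zpow_natCast, Int.toNat_of_nonneg hn.le]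
    · have : 0 < sv σ η ^ n := zpow_pos (by linarith) n
      linarith
  obtain ⟨hm1, rfl⟩ := hm
  have sub : ∀ c d : ℕ, m = c * d → ∃ A B : ℤ, ∃ x z, D A B x z ∧ D a b (x ^ d) (z ^ d) := by
    intro c d hcd
    have hc : c ≠ 0 := by rintro rfl; omega
    obtain ⟨A, B, hD⟩ := unit_D σ φ h3 him (η ^ c) (by rw [sv_pow]; exact one_lt_pow₀ hη hc)
    refine ⟨A, B, _, _, hD, ?_⟩
    rw [← sv_pow, ← cv_pow, ← pow_mul, ← hcd]
    exact hρ
  by_cases h2 : m % 2 = 0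
  · obtain ⟨A, B, x, z, h, h'⟩ := sub (m / 2) 2 (by omega)
    exact (no_two h h' (by omega) (by omega)).elim
  by_cases h3' : m % 3 = 0
  · obtain ⟨A, B, x, z, h, h'⟩ := sub (m / 3) 3 (by omega)
    exact (no_three h h' (by omega)).elim
  by_cases h5 : 5 ≤ m
  · obtain ⟨A, B, x, z, h, h'⟩ := sub 1 m (by omega)
    exact (hbad ⟨A, B, x, z, m, h5, h, h'⟩).elim
  have : m = 1 := by omega
  subst this
  rw [pow_one]
  exact hall

omit [NumberField K] in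
theorem unit_root {a b : ℕ} {θ : K} (c1 : σ θ ^ 3 = b * σ θ ^ 2 + a * σ θ + 1) :
    ∃ ρ : (𝓞 K)ˣ, ((ρ : 𝓞 K) : K) = θ := by
  have hθ : θ ^ 3 - b * θ ^ 2 - a * θ - 1 = 0 := by
    apply σ.injective
    simp only [map_sub, map_mul, map_pow, map_natCast, map_one, map_zero]
    linear_combination c1
  have hi : IsIntegral ℤ θ := ⟨fZ a b, fZ_monic a b, by rw [← aeval_def, aeval_fZ]; exact hθ⟩
  obtain ⟨t, ht0⟩ : ∃ t : 𝓞 K, algebraMap (𝓞 K) K t = θ := ⟨⟨θ, hi⟩, rfl⟩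
  have ht : t * (t ^ 2 - b * t - a) = 1 := by
    apply RingOfIntegers.coe_injective
    simp only [map_mul, map_sub, map_pow, map_natCast, map_one, ht0]
    linear_combination hθ
  exact ⟨Units.mkOfMulEqOne t _ ht, ht0⟩

end field

theorem exists_K {a b : ℕ} (hab : a ≤ b) (hb : 1 ≤ b) {x : ℝ} {z : ℂ} (hD : D a b x z) :
    ∃ (K : Type) (_ : Field K) (_ : NumberField K) (σ : K →+* ℝ) (φ : K →+* ℂ) (θ : K),
      σ θ = x ∧ φ θ = z ∧ Module.finrank ℚ K = 3 := by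
  haveI : Fact (Irreducible (fQ a b)) := ⟨fQ_irr a b hab hb⟩
  have c1 := hD.cubic
  have c2 := hD.cubicC
  push_cast at c1 c2
  refine ⟨AdjoinRoot (fQ a b), inferInstance, inferInstance,
    AdjoinRoot.lift (algebraMap ℚ ℝ) x (by rw [← aeval_def, aeval_fQ]; linear_combination c1),
    AdjoinRoot.lift (algebraMap ℚ ℂ) z (by rw [← aeval_def, aeval_fQ]; linear_combination c2),
    AdjoinRoot.root (fQ a b), AdjoinRoot.lift_root _, AdjoinRoot.lift_root _, ?_⟩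
  have := (AdjoinRoot.powerBasis (fQ_monic a b).ne_zero).finrank
  rw [AdjoinRoot.powerBasis_dim, fQ_deg] at this
  convert! this

theorem exists_field (N : ℕ) (hN : 8 ≤ N) (he : N % 2 = 0) :
    ∃ (K : Type) (_ : Field K) (_ : NumberField K) (σ : K →+* ℝ) (ρ : (𝓞 K)ˣ) (a b : ℕ),
      a + b = N ∧ a ≤ b ∧ 1 < sv σ ρ ∧ (b : ℝ) < sv σ ρ ∧
      sv σ ρ ^ 3 = b * sv σ ρ ^ 2 + a * sv σ ρ + 1 ∧
      ∀ u : (𝓞 K)ˣ, ∃ n : ℤ, sv σ u = sv σ ρ ^ n ∨ sv σ u = - sv σ ρ ^ n := by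
  obtain ⟨a, b, hN', ha, hab, h3, hbad⟩ := exists_good N hN
  obtain ⟨x, z, hD, him⟩ := exists_D a b hab h3 (by omega)
  obtain ⟨K, iF, iN, σ, φ, θ, hσ, hφ, hr⟩ := exists_K hab (by omega) hD
  have c1 := hD.cubic
  push_cast at c1
  obtain ⟨ρ, hρ⟩ := unit_root σ (a := a) (b := b) (θ := θ) (by rw [hσ]; exact c1)
  have s1 : sv σ ρ = x := by unfold sv; rw [hρ, hσ]
  have s2 : cv φ ρ = z := by unfold cv; rw [hρ, hφ]
  refine ⟨K, iF, iN, σ, ρ, a, b, hN', hab, s1 ▸ hD.1, s1 ▸ (hD.loc hab).1, s1 ▸ c1, ?_⟩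
  exact fundamental σ φ hr ρ (by rw [s1, s2]; exact hD) (by rw [s2]; exact him) ha (by omega) hbad

end Pool.Agent.H.MP_75c9b5_nt
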